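import Mathlib
import Pool.Agent.HS.M_cube_weak_fail

set_option autoImplicit false

namespace Pool.Agent.Results.MP_a2e4e3_an.WeakFailsAllP

/-- For every `1 < p < 2` and every `c > 0` there are `d ≥ 1`, `N` and a real function `f` on the
`N`-cube whose Walsh coefficients vanish for `|S| < d` such that `‖Δ f‖_p < c d ‖f‖_p`
(normalised `L^p` norms), where `Δ f (x) = ∑ i, (f x - f x^(i)) / 2`. -/
theorem result (p c : ℝ) (hp : 1 < p) (hp2 : p < 2) (hc : 0 < c) :
    ∃ (d N : ℕ) (f : (Fin N → Bool) → ℝ), 1 ≤ d ∧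
      (∀ S : Finset (Fin N), S.card < d →
        ∑ x : Fin N → Bool, f x * ∏ i ∈ S, (if x i then (-1 : ℝ) else 1) = 0) ∧
      ((∑ x : Fin N → Bool,
            |∑ i : Fin N, (f x - f (Function.update x i (!x i))) / 2| ^ p) / (2 : ℝ) ^ N) ^ (1 / p) <
        (d : ℝ) * c * ((∑ x : Fin N → Bool, |f x| ^ p) / (2 : ℝ) ^ N) ^ (1 / p) :=
  HS.cube_weak_fail p c hp hp2 hc

end Pool.Agent.Results.MP_a2e4e3_an.WeakFailsAllP
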