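import Mathlib
import Pool.Agent.Helper187.HS.P_weak_fails
import Pool.Agent.Helper187.HS.P_transport
import Pool.Agent.Helper187.HS.P_lap_chi
import Pool.Agent.Helper187.HS.P_chi_expand

set_option autoImplicit false

namespace Pool.Agent.Results.MP_a2e4e3_an.WeakHeatSmoothingFails

open scoped BigOperators

/-- The Walsh function `χ_S` on the `n`-cube (`true` stands for the sign `-1`). -/
noncomputable def chi {n : ℕ} (S : Finset (Fin n)) (x : Fin n → Bool) : ℝ :=
  ∏ i ∈ S, (if x i then (-1 : ℝ) else 1)

/-- The Walsh coefficient `f^(S) = E f χ_S`. -/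
noncomputable def walsh {n : ℕ} (f : (Fin n → Bool) → ℝ) (S : Finset (Fin n)) : ℝ :=
  (∑ x : Fin n → Bool, f x * chi S x) / (2 : ℝ) ^ n

/-- The hypercube Laplacian `Δ f = ∑_S |S| f^(S) χ_S`. -/
noncomputable def laplacian {n : ℕ} (f : (Fin n → Bool) → ℝ) : (Fin n → Bool) → ℝ :=
  fun x => ∑ S : Finset (Fin n), (S.card : ℝ) * walsh f S * chi S x

/-- The `L^p` norm for the uniform probability measure on the cube. -/
noncomputable def lpNorm {n : ℕ} (p : ℝ) (f : (Fin n → Bool) → ℝ) : ℝ :=
  ((∑ x : Fin n → Bool, |f x| ^ p) / (2 : ℝ) ^ n) ^ (1 / p)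

/-- `f` is of high degree `≥ d`: all Walsh coefficients with `|S| < d` vanish. -/
def HighDegree {n : ℕ} (d : ℕ) (f : (Fin n → Bool) → ℝ) : Prop :=
  ∀ S : Finset (Fin n), S.card < d → walsh f S = 0

theorem lpNorm_eq {n : ℕ} (p : ℝ) (f : (Fin n → Bool) → ℝ) :
    lpNorm p f = Helper187.HS.nrm p f := by
  simp [lpNorm, Helper187.HS.nrm, Helper187.HS.mean]

theorem laplacian_eq {n : ℕ} (f : (Fin n → Bool) → ℝ) :
    laplacian f = Helper187.HS.lap f := by
  have h1 : f = fun x => ∑ S : Finset (Fin n), walsh f S * chi S x := by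
    funext x
    have := Helper187.HS.chi_expand f x
    simpa [walsh, chi, Helper187.HS.mean, Helper187.HS.chi] using this
  funext x
  conv_rhs => rw [h1]
  simp only [laplacian, Helper187.HS.lap]
  have h2 : ∀ S : Finset (Fin n), (S.card : ℝ) * chi S x =
      ∑ i : Fin n, (chi S x - chi S (Helper187.HS.flip x i)) / 2 := by
    intro S
    have := congrFun (Helper187.HS.lap_chi (ι := Fin n) S) x
    simpa [Helper187.HS.lap, Helper187.HS.chi, chi] using this.symm
  calc ∑ S : Finset (Fin n), (S.card : ℝ) * walsh f S * chi S x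
      = ∑ S : Finset (Fin n), walsh f S *
          ∑ i : Fin n, (chi S x - chi S (Helper187.HS.flip x i)) / 2 := by
        refine Finset.sum_congr rfl (fun S _ => ?_)
        rw [← h2 S]; ring
    _ = ∑ i : Fin n, ∑ S : Finset (Fin n), walsh f S *
          ((chi S x - chi S (Helper187.HS.flip x i)) / 2) := by
        rw [Finset.sum_comm]
        refine Finset.sum_congr rfl (fun S _ => ?_)
        rw [Finset.mul_sum]
    _ = _ := by
        refine Finset.sum_congr rfl (fun i _ => ?_)
        rw [← Finset.sum_sub_distrib, Finset.sum_div]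
        refine Finset.sum_congr rfl (fun S _ => ?_)
        ring

theorem highDegree_iff {n d : ℕ} (f : (Fin n → Bool) → ℝ) :
    HighDegree d f ↔ Helper187.HS.Tail d f := by
  unfold HighDegree Helper187.HS.Tail walsh
  constructor
  · intro h S hS
    have := h S hS
    rw [div_eq_zero_iff] at this
    rcases this with h0 | h0
    · exact h0
    · exact absurd h0 (by positivity)
  · intro h S hS
    have h0 := h S hS
    simp only [Helper187.HS.chi] at h0
    simp only [chi, h0, zero_div]

/-- **Failure of weak heat smoothing on tail spaces.**  For `p = 4/3` there is no constant `c > 0`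
with `‖Δ f‖_p ≥ c d ‖f‖_p` for all `d, n ≥ 1` and all `f` of high degree `≥ d` on the `n`-cube. -/
theorem result : ∀ c : ℝ, 0 < c → ∃ d n : ℕ, 1 ≤ d ∧ 1 ≤ n ∧
    ∃ f : (Fin n → Bool) → ℝ, f ≠ 0 ∧ HighDegree d f ∧
      lpNorm (4 / 3) (laplacian f) < c * (d : ℝ) * lpNorm (4 / 3) f := by
  intro c hc
  obtain ⟨n, M, d, hd, f, hf, hlt⟩ := Helper187.HS.weak_fails c hc
  obtain ⟨f', hf', h1, h2⟩ := Helper187.HS.transport d f hf
  have key : Helper187.HS.nrm (4 / 3) (Helper187.HS.lap f') <
      c * (d : ℝ) * Helper187.HS.nrm (4 / 3) f' := by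
    rw [h1, h2]
    calc _ < (d : ℝ) * c * Helper187.HS.nrm (4 / 3) f := hlt
      _ = _ := by ring
  have hne : f' ≠ 0 := by
    intro h0
    rw [h0] at key
    have hz : Helper187.HS.nrm (4 / 3)
        (0 : (Fin (Fintype.card (Helper187.HS.Idx n M)) → Bool) → ℝ) = 0 := by
      simp [Helper187.HS.nrm, Helper187.HS.mean]
    have hz2 : Helper187.HS.lap
        (0 : (Fin (Fintype.card (Helper187.HS.Idx n M)) → Bool) → ℝ) = 0 := by
      funext x
      simp [Helper187.HS.lap]
    rw [hz2, hz] at key
    simp at key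
  refine ⟨d, Fintype.card (Helper187.HS.Idx n M), hd, ?_, f', hne,
    (highDegree_iff f').2 hf', ?_⟩
  · by_contra hn
    have hn0 : Fintype.card (Helper187.HS.Idx n M) = 0 := by omega
    apply hne
    have hemp : IsEmpty (Fin (Fintype.card (Helper187.HS.Idx n M))) := by
      rw [hn0]; infer_instance
    have h3 := hf' ∅ (by simp; omega)
    funext x
    have hx : ∀ y : Fin (Fintype.card (Helper187.HS.Idx n M)) → Bool, y = x := by
      intro y
      funext i
      exact hemp.elim i
    have : ∑ y : Fin (Fintype.card (Helper187.HS.Idx n M)) → Bool,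
        f' y * Helper187.HS.chi ∅ y = f' x := by
      rw [Finset.sum_eq_single x]
      · simp [Helper187.HS.chi]
      · intro y _ hy
        exact absurd (hx y) hy
      · intro h; exact absurd (Finset.mem_univ x) h
    rw [this] at h3
    simpa using h3
  · rw [lpNorm_eq, lpNorm_eq, laplacian_eq]
    exact key

end Pool.Agent.Results.MP_a2e4e3_an.WeakHeatSmoothingFails
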